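import Pool.Agent.Lib.MP_4eb50a_lc.Final

/-!
# Self-reducible sets which are (`2 ^ k - 1` for `k`) p-cheatable are in P
-/

namespace Pool.Agent.Results.MP_4eb50a_lc.SelfRedCheatable

open Pool.Agent.Lib.MP_4eb50a_lc

/-- For every `k ≥ 2`, every set which is self-reducible and (`2 ^ k - 1` for `k`) p-cheatable
belongs to P. -/
theorem result (k : ℕ) (hk : 2 ≤ k) (A : Set Word) (hS : SelfReducible A)
    (hC : Cheatable (2 ^ k - 1) k A) : InP A :=
  main hk hS hC

end Pool.Agent.Results.MP_4eb50a_lc.SelfRedCheatable
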